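import Mathlib
import Pool.Agent.Helper417.Mer.QuotMfd

set_option autoImplicit false
set_option linter.unusedSectionVars false
open scoped Manifold ContDiff Topology
open Set Filter

/-! Descent of equivariant maps to a quotient manifold, over the real or the complex field. -/

namespace Pool.Agent.H587Z.Aut

open Pool.Agent.Helper417.Mer

variable {E : Type} [NormedAddCommGroup E] [NormedSpace ℂ E] {M : Type} [TopologicalSpace M]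
  (d : CQuot E M)

/-- the chosen representative, as a point of `E` -/
noncomputable def rep (y : M) : E := (d.sec y : d.U)

lemma rep_mem (y : M) : rep d y ∈ d.U := (d.sec y).2

lemma Q_rep (y : M) : d.Q (rep d y) = y := by
  rw [d.Q_eq (rep_mem d y)]
  exact d.sec_spec y

lemma phi_mem (g : d.G) {x : E} (hx : x ∈ d.U) : d.φ g x ∈ d.U := by
  have := d.φ_spec g ⟨x, hx⟩
  rw [← this]
  exact Subtype.coe_prop _

lemma Q_phi (g : d.G) {x : E} (hx : x ∈ d.U) : d.Q (d.φ g x) = d.Q x := by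
  rw [d.Q_eq hx, d.Q_eq (phi_mem d g hx)]
  have h1 : (⟨d.φ g x, phi_mem d g hx⟩ : d.U) = g • (⟨x, hx⟩ : d.U) :=
    Subtype.ext (d.φ_spec g ⟨x, hx⟩).symm
  rw [h1]
  exact d.hq.map_smul (e := (⟨x, hx⟩ : d.U)) g

lemma exists_phi {x y : E} (hx : x ∈ d.U) (hy : y ∈ d.U) (h : d.Q x = d.Q y) :
    ∃ g, x = d.φ g y := by
  rw [d.Q_eq hx, d.Q_eq hy] at h
  obtain ⟨g, hg⟩ := d.hq.apply_eq_iff_mem_orbit.1 h
  refine ⟨g, ?_⟩
  have := congrArg Subtype.val hg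
  rw [← d.φ_spec g ⟨y, hy⟩]
  exact this.symm

/-- the map induced on the quotient -/
noncomputable def desc (G : E → E) (y : M) : M := d.Q (G (rep d y))

lemma desc_Q {G : E → E} (hU : ∀ x ∈ d.U, G x ∈ d.U)
    (hc : ∀ g, ∀ x ∈ d.U, G (d.φ g x) = d.φ g (G x)) {x : E} (hx : x ∈ d.U) :
    desc d G (d.Q x) = d.Q (G x) := by
  obtain ⟨g, hg⟩ := exists_phi d (rep_mem d (d.Q x)) hx (Q_rep d _)
  rw [desc, hg, hc g x hx, Q_phi d g (hU x hx)]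

section field

variable (𝕜 : Type) [NontriviallyNormedField 𝕜] [NormedSpace 𝕜 E]

lemma extChartAt_coe' (y : M) :
    letI := d.cs
    ⇑(extChartAt 𝓘(𝕜, E) y) = fun z => ((d.hl.localInverseAt (d.sec y) z : d.U) : E) := by
  let _ := d.cs
  ext z
  simp [extChartAt, CQuot.chartAt_eq]

lemma contMDiffAt_Q (hφ : ∀ g, ContDiff 𝕜 ∞ (d.φ g)) {v : E} (hv : v ∈ d.U) :
    letI := d.cs
    ContMDiffAt 𝓘(𝕜, E) 𝓘(𝕜, E) ∞ d.Q v := by
  let _ := d.cs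
  rw [contMDiffAt_iff]
  refine ⟨d.continuousAt_Q hv, ?_⟩
  have hx : d.Q v ∈ (d.hl.localInverseAt (d.sec (d.Q v))).source := by
    have := d.hl.apply_self_mem_localInverseAt_source (x := d.sec (d.Q v))
    rwa [d.sec_spec] at this
  obtain ⟨g, hg⟩ := d.eventually_local (d.sec (d.Q v)) v hv hx
  have h1 : ContDiffAt 𝕜 ∞ (fun u => ((d.hl.localInverseAt (d.sec (d.Q v)) (d.Q u) : d.U) : E)) v :=
    (hφ g).contDiffAt.congr_of_eventuallyEq hg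
  rw [extChartAt_coe']
  simpa [Function.comp_def, chartAt_self_eq] using h1.contDiffWithinAt

lemma eventually_chart (y : M) :
    letI := d.cs
    ∀ᶠ z in 𝓝 y, extChartAt 𝓘(𝕜, E) y z ∈ d.U ∧ d.Q (extChartAt 𝓘(𝕜, E) y z) = z := by
  let _ := d.cs
  have hs : y ∈ (d.hl.localInverseAt (d.sec y)).source := by
    have := d.hl.apply_self_mem_localInverseAt_source (x := d.sec y)
    rwa [d.sec_spec] at this
  filter_upwards [(d.hl.localInverseAt (d.sec y)).open_source.mem_nhds hs] with z hz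
  rw [extChartAt_coe']
  refine ⟨Subtype.coe_prop _, ?_⟩
  rw [d.Q_eq (Subtype.coe_prop _)]
  exact d.hl.apply_localInverseAt_of_mem hz

/-- descent of a smooth family of equivariant maps -/
lemma contMDiff_desc_family (hφ : ∀ g, ContDiff 𝕜 ∞ (d.φ g)) {G : 𝕜 → E → E}
    (hG : ContDiff 𝕜 ∞ (fun p : 𝕜 × E => G p.1 p.2))
    (hU : ∀ t, ∀ x ∈ d.U, G t x ∈ d.U)
    (hc : ∀ t g, ∀ x ∈ d.U, G t (d.φ g x) = d.φ g (G t x)) :
    letI := d.cs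
    ContMDiff (𝓘(𝕜, 𝕜).prod 𝓘(𝕜, E)) 𝓘(𝕜, E) ∞ (fun p : 𝕜 × M => desc d (G p.1) p.2) := by
  let _ := d.cs
  rintro ⟨t, y⟩
  have h1 : ContMDiffAt (𝓘(𝕜, 𝕜).prod 𝓘(𝕜, E)) 𝓘(𝕜, E) ∞
      (fun p : 𝕜 × M => extChartAt 𝓘(𝕜, E) y p.2) (t, y) :=
    ContMDiffAt.comp (t, y) (g := extChartAt 𝓘(𝕜, E) y) (f := Prod.snd)
      contMDiffAt_extChartAt contMDiffAt_snd
  have h2 : ContMDiffAt (𝓘(𝕜, 𝕜).prod 𝓘(𝕜, E)) 𝓘(𝕜, 𝕜 × E) ∞
      (fun p : 𝕜 × M => (p.1, extChartAt 𝓘(𝕜, E) y p.2)) (t, y) :=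
    ContMDiffAt.prodMk_space contMDiffAt_fst h1
  have h3 : ContMDiffAt (𝓘(𝕜, 𝕜).prod 𝓘(𝕜, E)) 𝓘(𝕜, E) ∞
      (fun p : 𝕜 × M => G p.1 (extChartAt 𝓘(𝕜, E) y p.2)) (t, y) :=
    ContMDiffAt.comp (t, y) (g := fun p : 𝕜 × E => G p.1 p.2) hG.contMDiff.contMDiffAt h2
  have hev := eventually_chart d 𝕜 y
  have h4 : ContMDiffAt (𝓘(𝕜, 𝕜).prod 𝓘(𝕜, E)) 𝓘(𝕜, E) ∞
      (fun p : 𝕜 × M => d.Q (G p.1 (extChartAt 𝓘(𝕜, E) y p.2))) (t, y) :=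
    ContMDiffAt.comp (t, y) (g := d.Q)
      (contMDiffAt_Q d 𝕜 hφ (hU t _ hev.self_of_nhds.1)) h3
  refine h4.congr_of_eventuallyEq ?_
  have hev2 : ∀ᶠ p : 𝕜 × M in 𝓝 (t, y),
      extChartAt 𝓘(𝕜, E) y p.2 ∈ d.U ∧ d.Q (extChartAt 𝓘(𝕜, E) y p.2) = p.2 :=
    (continuous_snd.tendsto (t, y)).eventually hev
  filter_upwards [hev2] with p hp
  rw [← desc_Q d (hU p.1) (hc p.1) hp.1, hp.2]

lemma contMDiff_desc (hφ : ∀ g, ContDiff 𝕜 ∞ (d.φ g)) {G : E → E}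
    (hG : ContDiff 𝕜 ∞ G) (hU : ∀ x ∈ d.U, G x ∈ d.U)
    (hc : ∀ g, ∀ x ∈ d.U, G (d.φ g x) = d.φ g (G x)) :
    letI := d.cs
    ContMDiff 𝓘(𝕜, E) 𝓘(𝕜, E) ∞ (desc d G) := by
  let _ := d.cs
  have h := contMDiff_desc_family d 𝕜 hφ (G := fun _ => G) (hG.comp contDiff_snd)
    (fun _ => hU) (fun _ => hc)
  have h2 : ContMDiff 𝓘(𝕜, E) (𝓘(𝕜, 𝕜).prod 𝓘(𝕜, E)) ∞ (fun y : M => ((0 : 𝕜), y)) :=
    contMDiff_const.prodMk contMDiff_id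
  exact h.comp h2

/-- descent of an equivariant diffeomorphism -/
lemma exists_diffeo (hφ : ∀ g, ContDiff 𝕜 ∞ (d.φ g)) {G G' : E → E}
    (hG : ContDiff 𝕜 ∞ G) (hG' : ContDiff 𝕜 ∞ G')
    (hU : ∀ x ∈ d.U, G x ∈ d.U) (hU' : ∀ x ∈ d.U, G' x ∈ d.U)
    (h1 : ∀ x, G (G' x) = x) (h2 : ∀ x, G' (G x) = x)
    (hc : ∀ g, ∀ x ∈ d.U, G (d.φ g x) = d.φ g (G x)) :
    letI := d.cs
    ∃ ψ : Diffeomorph 𝓘(𝕜, E) 𝓘(𝕜, E) M M ∞, ⇑ψ = desc d G := by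
  let _ := d.cs
  have hc' : ∀ g, ∀ x ∈ d.U, G' (d.φ g x) = d.φ g (G' x) := by
    intro g x hx
    have := hc g (G' x) (hU' x hx)
    rw [h1] at this
    rw [← this, h2]
  refine ⟨⟨⟨desc d G, desc d G', ?_, ?_⟩, contMDiff_desc d 𝕜 hφ hG hU hc,
    contMDiff_desc d 𝕜 hφ hG' hU' hc'⟩, rfl⟩
  · intro y
    have : desc d G y = d.Q (G (rep d y)) := rfl
    rw [this, desc_Q d hU' hc' (hU _ (rep_mem d y)), h2, Q_rep]
  · intro y
    have : desc d G' y = d.Q (G' (rep d y)) := rfl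
    rw [this, desc_Q d hU hc (hU' _ (rep_mem d y)), h1, Q_rep]

end field

/-- a local holomorphic lift of a holomorphic self-map -/
lemma exists_local_lift {h : M → M}
    (hh : letI := d.cs; MDifferentiable 𝓘(ℂ, E) 𝓘(ℂ, E) h) {p q : E} (hp : p ∈ d.U)
    (hq : q ∈ d.U) (hpq : h (d.Q p) = d.Q q) :
    ∃ s : E → E, DifferentiableAt ℂ s p ∧ s p = q ∧
      ∀ᶠ u in 𝓝 p, s u ∈ d.U ∧ d.Q (s u) = h (d.Q u) := by
  let _ := d.cs
  have hQ : MDifferentiableAt 𝓘(ℂ, E) 𝓘(ℂ, E) (fun u => d.Q u) p :=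
    d.mdifferentiableAt_Q (F := fun u => u) differentiableAt_id hp
  have hf : MDifferentiableAt 𝓘(ℂ, E) 𝓘(ℂ, E) (fun u => h (d.Q u)) p :=
    MDifferentiableAt.comp p (g := h) (hh _) hQ
  have hx : h (d.Q p) ∈ (d.hl.localInverseAt ⟨q, hq⟩).source := by
    rw [hpq, d.Q_eq hq]
    exact d.hl.apply_self_mem_localInverseAt_source
  refine ⟨fun u => ((d.hl.localInverseAt ⟨q, hq⟩ (h (d.Q u)) : d.U) : E),
    d.differentiableAt_localInverse ⟨q, hq⟩ hf hx, ?_, ?_⟩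
  · simp only [hpq, d.Q_eq hq]
    rw [d.hl.localInverseAt_apply_self]
  · have h4 : ∀ᶠ u in 𝓝 p, h (d.Q u) ∈ (d.hl.localInverseAt ⟨q, hq⟩).source :=
      hf.continuousAt.preimage_mem_nhds ((d.hl.localInverseAt ⟨q, hq⟩).open_source.mem_nhds hx)
    filter_upwards [h4] with u hu
    refine ⟨Subtype.coe_prop _, ?_⟩
    rw [d.Q_eq (Subtype.coe_prop _)]
    exact d.hl.apply_localInverseAt_of_mem hu

end Pool.Agent.H587Z.Aut
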