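import Mathlib
import Pool.Agent.H587Z.Aut.Gen

set_option autoImplicit false
set_option linter.unusedSectionVars false
open scoped Manifold ContDiff Topology
open Set Filter Complex

/-! The threefold `X = (ℂ × (ℂ² ∖ 0)) / Γ`, where `Γ` is the discrete Heisenberg group acting by
`(z, x) ↦ (z + m + n i, exp (n z + i n² / 2 + k) x)`. -/

namespace Pool.Agent.H587Z.Aut

open Pool.Agent.Helper417.Mer

/-- `ℂ³` -/
abbrev E3 : Type := EuclideanSpace ℂ (Fin 3)

/-- a point of `ℂ³` -/
noncomputable def mk3 (a b c : ℂ) : E3 := WithLp.toLp 2 ![a, b, c]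

@[simp] lemma mk3_0 (a b c : ℂ) : mk3 a b c 0 = a := rfl
@[simp] lemma mk3_1 (a b c : ℂ) : mk3 a b c 1 = b := rfl
@[simp] lemma mk3_2 (a b c : ℂ) : mk3 a b c 2 = c := rfl

lemma ext3 {p q : E3} (h0 : p 0 = q 0) (h1 : p 1 = q 1) (h2 : p 2 = q 2) : p = q := by
  ext i
  fin_cases i
  · exact h0
  · exact h1
  · exact h2

lemma contDiff_mk3 {𝕜 : Type} [NontriviallyNormedField 𝕜] [NormedSpace 𝕜 ℂ]
    {V : Type} [NormedAddCommGroup V] [NormedSpace 𝕜 V] {n : WithTop ℕ∞} {a b c : V → ℂ}
    (ha : ContDiff 𝕜 n a) (hb : ContDiff 𝕜 n b) (hc : ContDiff 𝕜 n c) :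
    ContDiff 𝕜 n (fun v => mk3 (a v) (b v) (c v)) := by
  rw [contDiff_piLp]
  intro i
  fin_cases i
  · exact ha
  · exact hb
  · exact hc

lemma contDiff_coord {𝕜 : Type} [NontriviallyNormedField 𝕜] [NormedSpace 𝕜 ℂ]
    {n : WithTop ℕ∞} (i : Fin 3) : ContDiff 𝕜 n (fun p : E3 => p i) :=
  contDiff_piLp_apply (p := 2)

lemma continuous_coord (i : Fin 3) : Continuous (fun p : E3 => p i) :=
  (contDiff_coord (𝕜 := ℂ) (n := 0) i).continuous

/-- the discrete Heisenberg group -/
@[ext] structure Gam where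
  m : ℤ
  n : ℤ
  k : ℤ

instance : Mul Gam := ⟨fun g h => ⟨g.m + h.m, g.n + h.n, g.k + h.k + g.n * h.m⟩⟩
instance : One Gam := ⟨⟨0, 0, 0⟩⟩
instance : Inv Gam := ⟨fun g => ⟨-g.m, -g.n, -g.k + g.n * g.m⟩⟩

@[simp] lemma mul_m (g h : Gam) : (g * h).m = g.m + h.m := rfl
@[simp] lemma mul_n (g h : Gam) : (g * h).n = g.n + h.n := rfl
@[simp] lemma mul_k (g h : Gam) : (g * h).k = g.k + h.k + g.n * h.m := rfl
@[simp] lemma one_m : (1 : Gam).m = 0 := rfl
@[simp] lemma one_n : (1 : Gam).n = 0 := rfl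
@[simp] lemma one_k : (1 : Gam).k = 0 := rfl
@[simp] lemma inv_m (g : Gam) : (g⁻¹).m = -g.m := rfl
@[simp] lemma inv_n (g : Gam) : (g⁻¹).n = -g.n := rfl
@[simp] lemma inv_k (g : Gam) : (g⁻¹).k = -g.k + g.n * g.m := rfl

instance : Group Gam := Group.ofLeftAxioms
  (fun a b c => by ext <;> simp <;> ring)
  (fun a => by ext <;> simp)
  (fun a => by ext <;> simp)

/-- the exponent of the multiplier -/
noncomputable def ex (g : Gam) (z : ℂ) : ℂ := g.n * z + I * (g.n : ℂ) ^ 2 / 2 + g.k

/-- the action -/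
noncomputable def act (g : Gam) (p : E3) : E3 :=
  mk3 (p 0 + g.m + g.n * I) (exp (ex g (p 0)) * p 1) (exp (ex g (p 0)) * p 2)

@[simp] lemma act_0 (g : Gam) (p : E3) : act g p 0 = p 0 + g.m + g.n * I := rfl
@[simp] lemma act_1 (g : Gam) (p : E3) : act g p 1 = exp (ex g (p 0)) * p 1 := rfl
@[simp] lemma act_2 (g : Gam) (p : E3) : act g p 2 = exp (ex g (p 0)) * p 2 := rfl

lemma ex_mul (g h : Gam) (z : ℂ) : ex (g * h) z = ex g (z + h.m + h.n * I) + ex h z := by
  simp only [ex, mul_n, mul_k]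
  push_cast
  ring

lemma act_one (p : E3) : act 1 p = p := by
  apply ext3 <;> simp [ex]

lemma act_mul (g h : Gam) (p : E3) : act (g * h) p = act g (act h p) := by
  apply ext3
  · simp only [act_0, mul_m, mul_n]
    push_cast
    ring
  · simp only [act_0, act_1, ex_mul, exp_add]
    ring
  · simp only [act_0, act_2, ex_mul, exp_add]
    ring

lemma act_contDiff {𝕜 : Type} [NontriviallyNormedField 𝕜] [NormedAlgebra 𝕜 ℂ]
    {n : WithTop ℕ∞} (g : Gam) : ContDiff 𝕜 n (act g) := by
  have h0 := contDiff_coord (𝕜 := 𝕜) (n := n) 0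
  have h1 := contDiff_coord (𝕜 := 𝕜) (n := n) 1
  have h2 := contDiff_coord (𝕜 := 𝕜) (n := n) 2
  have he : ContDiff 𝕜 n (fun p : E3 => exp (ex g (p 0))) := by
    apply ContDiff.cexp
    unfold ex
    exact ((contDiff_const.mul h0).add contDiff_const).add contDiff_const
  exact contDiff_mk3 ((h0.add contDiff_const).add contDiff_const) (he.mul h1) (he.mul h2)

/-- a norm of the fibre coordinate -/
noncomputable def nu (p : E3) : ℝ := ‖p 1‖ + ‖p 2‖

/-- the universal cover -/
def U : Set E3 := {p | 0 < nu p}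

/-- the logarithm of the norm of the fibre coordinate -/
noncomputable def rho (p : E3) : ℝ := Real.log (nu p)

lemma continuous_nu : Continuous nu :=
  (continuous_coord 1).norm.add (continuous_coord 2).norm

lemma isOpen_U : IsOpen U := isOpen_lt continuous_const continuous_nu

lemma continuousAt_rho {p : E3} (hp : p ∈ U) : ContinuousAt rho p :=
  continuous_nu.continuousAt.log (ne_of_gt hp)

lemma ex_re (g : Gam) (z : ℂ) : (ex g z).re = g.n * z.re + g.k := by
  simp [ex, pow_two]

lemma nu_act (g : Gam) (p : E3) : nu (act g p) = Real.exp (g.n * (p 0).re + g.k) * nu p := by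
  simp only [nu, act_1, act_2, norm_mul, norm_exp, ex_re]
  ring

lemma act_mem (g : Gam) {p : E3} (hp : p ∈ U) : act g p ∈ U := by
  show 0 < nu (act g p)
  rw [nu_act]
  exact mul_pos (Real.exp_pos _) hp

lemma rho_act (g : Gam) {p : E3} (hp : p ∈ U) :
    rho (act g p) = rho p + g.n * (p 0).re + g.k := by
  rw [rho, nu_act, Real.log_mul (Real.exp_ne_zero _) (ne_of_gt hp), Real.log_exp, rho]
  ring

lemma act_re (g : Gam) (p : E3) : (act g p 0).re = (p 0).re + g.m := by simp
lemma act_im (g : Gam) (p : E3) : (act g p 0).im = (p 0).im + g.n := by simp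

noncomputable instance mulAction : MulAction Gam U where
  smul g x := ⟨act g x, act_mem g x.2⟩
  one_smul x := Subtype.ext (act_one x)
  mul_smul g h x := Subtype.ext (act_mul g h x)

lemma smul_coe (g : Gam) (x : U) : ((g • x : U) : E3) = act g x := rfl

instance contSMul : ContinuousConstSMul Gam U where
  continuous_const_smul g := by
    apply Continuous.subtype_mk
    exact (act_contDiff (𝕜 := ℂ) (n := 0) g).continuous.comp continuous_subtype_val

lemma act_inj {g h : Gam} {x : E3} (hx : x ∈ U) (e : act g x = act h x) : g = h := by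
  have h1 := act_re g x
  have h2 := act_im g x
  have h3 := rho_act g hx
  rw [e, act_re] at h1
  rw [e, act_im] at h2
  rw [e, rho_act h hx] at h3
  have hm : (h.m : ℝ) = g.m := by linarith
  have hn : (h.n : ℝ) = g.n := by linarith
  rw [hn] at h3
  have hk : (h.k : ℝ) = g.k := by linarith
  ext
  · exact_mod_cast hm.symm
  · exact_mod_cast hn.symm
  · exact_mod_cast hk.symm

instance cancelSMul : IsCancelSMul Gam U where
  right_cancel' _ _ x hx := act_inj x.2 (congrArg Subtype.val hx)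

lemma finite_of_bdd (R : ℝ) :
    {g : Gam | |(g.m : ℝ)| ≤ R ∧ |(g.n : ℝ)| ≤ R ∧ |(g.k : ℝ)| ≤ R}.Finite := by
  obtain ⟨N, hN⟩ := exists_nat_ge R
  have hf : ((Icc (-(N : ℤ)) N) ×ˢ (Icc (-(N : ℤ)) N) ×ˢ (Icc (-(N : ℤ)) N)).Finite :=
    (finite_Icc _ _).prod ((finite_Icc _ _).prod (finite_Icc _ _))
  have key : ∀ a : ℤ, |(a : ℝ)| ≤ R → a ∈ Icc (-(N : ℤ)) N := by
    intro a ha
    have : |(a : ℝ)| ≤ N := ha.trans hN
    rw [abs_le] at this
    constructor
    · exact_mod_cast this.1
    · exact_mod_cast this.2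
  refine (hf.image (fun t => (⟨t.1, t.2.1, t.2.2⟩ : Gam))).subset ?_
  rintro g ⟨h1, h2, h3⟩
  exact ⟨(g.m, g.n, g.k), ⟨key _ h1, key _ h2, key _ h3⟩, rfl⟩

instance pdSMul : ProperlyDiscontinuousSMul Gam U where
  finite_disjoint_inter_image := by
    intro K L hK hL
    have hc : Continuous (fun x : U => |((x : E3) 0).re| + |((x : E3) 0).im| + |rho x|) := by
      have h0 : Continuous (fun x : U => (x : E3) 0) :=
        (continuous_coord 0).comp continuous_subtype_val
      have h1 : Continuous (fun x : U => rho x) := by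
        rw [continuous_iff_continuousAt]
        intro x
        exact (continuousAt_rho x.2).comp continuous_subtype_val.continuousAt
      exact ((continuous_re.comp h0).abs.add (continuous_im.comp h0).abs).add h1.abs
    obtain ⟨B, hB⟩ := ((hK.union hL).image hc).bddAbove
    have hb : ∀ x ∈ K ∪ L, |((x : E3) 0).re| ≤ B ∧ |((x : E3) 0).im| ≤ B ∧ |rho x| ≤ B := by
      intro x hx
      have := hB ⟨x, hx, rfl⟩
      have a1 := abs_nonneg ((x : E3) 0).re
      have a2 := abs_nonneg ((x : E3) 0).im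
      have a3 := abs_nonneg (rho x)
      simp only at this
      exact ⟨by linarith, by linarith, by linarith⟩
    refine (finite_of_bdd (2 * B + 2 * B * B)).subset ?_
    rintro g ⟨_, ⟨x, hx, rfl⟩, hy⟩
    obtain ⟨a1, a2, a3⟩ := hb x (Or.inl hx)
    obtain ⟨b1, b2, b3⟩ := hb _ (Or.inr hy)
    simp only [smul_coe] at b1 b2 b3
    rw [act_re] at b1
    rw [act_im] at b2
    rw [rho_act g x.2] at b3
    have hB0 : 0 ≤ B := (abs_nonneg _).trans a1
    have hBB : 0 ≤ 2 * B * B := by positivity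
    have hn : |(g.n : ℝ)| ≤ 2 * B := by
      rw [abs_le] at a2 b2 ⊢
      constructor <;> linarith [a2.1, a2.2, b2.1, b2.2]
    have hp : |(g.n : ℝ) * ((x : E3) 0).re| ≤ 2 * B * B := by
      rw [abs_mul]
      exact mul_le_mul hn a1 (abs_nonneg _) (by positivity)
    refine ⟨?_, hn.trans (by linarith), ?_⟩
    · rw [abs_le] at a1 b1 ⊢
      constructor <;> linarith [a1.1, a1.2, b1.1, b1.2]
    · rw [abs_le] at a3 b3 hp ⊢
      constructor <;> linarith [a3.1, a3.2, b3.1, b3.2, hp.1, hp.2]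

/-- the threefold -/
abbrev X : Type := Quotient (MulAction.orbitRel Gam U)

lemma locallyCompact : LocallyCompactSpace U := isOpen_U.locallyCompactSpace

lemma isQuot : IsQuotientCoveringMap (Quotient.mk (MulAction.orbitRel Gam U)) Gam := by
  have := locallyCompact
  exact isQuotientCoveringMap_quotientMk_of_properlyDiscontinuousSMul

lemma mk3_mem : mk3 0 1 0 ∈ U := by
  simp [U, nu]

/-- the quotient data -/
noncomputable def D : CQuot E3 X where
  U := U
  isOpen := isOpen_U
  nonempty := ⟨⟨_, mk3_mem⟩⟩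
  G := Gam
  grp := inferInstance
  act := inferInstance
  q := Quotient.mk _
  hq := isQuot
  φ := act
  φ_spec := fun _ _ => rfl
  φ_diff := fun g => act_contDiff g

lemma t2 : T2Space X := by
  have := locallyCompact
  exact t2Space_of_properlyDiscontinuousSMul_of_t2Space

lemma compact : CompactSpace X := by
  set F : Set E3 := {p | ‖p 0‖ ≤ 2 ∧ 1 ≤ nu p ∧ nu p ≤ Real.exp 1} with hF
  have hFc : IsCompact F := by
    apply Metric.isCompact_of_isClosed_isBounded
    · exact (isClosed_le (continuous_coord 0).norm continuous_const).inter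
        ((isClosed_le continuous_const continuous_nu).inter
          (isClosed_le continuous_nu continuous_const))
    · rw [isBounded_iff_forall_norm_le]
      refine ⟨Real.sqrt (3 * (2 + Real.exp 1) ^ 2), ?_⟩
      rintro p ⟨h0, -, h2⟩
      rw [EuclideanSpace.norm_eq, Fin.sum_univ_three]
      apply Real.sqrt_le_sqrt
      have e0 := Real.exp_pos 1
      have n0 := norm_nonneg (p 0)
      have n1 := norm_nonneg (p 1)
      have n2 := norm_nonneg (p 2)
      unfold nu at h2
      have a0 : ‖p 0‖ ^ 2 ≤ (2 + Real.exp 1) ^ 2 := by gcongr; linarith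
      have a1 : ‖p 1‖ ^ 2 ≤ (2 + Real.exp 1) ^ 2 := by gcongr; linarith
      have a2 : ‖p 2‖ ^ 2 ≤ (2 + Real.exp 1) ^ 2 := by gcongr; linarith
      linarith
  have hFU : F ⊆ U := fun p hp => lt_of_lt_of_le one_pos hp.2.1
  have hcQ : ContinuousOn D.Q F := fun x hx => (D.continuousAt_Q (hFU hx)).continuousWithinAt
  refine ⟨(hFc.image_of_continuousOn hcQ).of_isClosed_subset isClosed_univ ?_⟩
  intro y _
  have hp : rep D y ∈ U := rep_mem D y
  set p := rep D y with hpdef
  set n : ℤ := -⌊(p 0).im⌋ with hn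
  set g : Gam := ⟨-⌊(p 0).re⌋, n, -⌊rho p + n * (p 0).re⌋⟩ with hg
  refine ⟨act g p, ⟨?_, ?_, ?_⟩, ?_⟩
  · have h1 : (act g p 0).re = Int.fract (p 0).re := by
      rw [act_re, Int.fract]; simp [hg, sub_eq_add_neg]
    have h2 : (act g p 0).im = Int.fract (p 0).im := by
      rw [act_im, Int.fract]; simp [hg, hn, sub_eq_add_neg]
    refine (norm_le_abs_re_add_abs_im _).trans ?_
    rw [h1, h2, abs_of_nonneg (Int.fract_nonneg _), abs_of_nonneg (Int.fract_nonneg _)]
    linarith [Int.fract_lt_one (p 0).re, Int.fract_lt_one (p 0).im]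
  · have h3 : rho (act g p) = Int.fract (rho p + n * (p 0).re) := by
      rw [rho_act g hp, Int.fract]; simp [hg, sub_eq_add_neg]
    have h4 : nu (act g p) = Real.exp (rho (act g p)) := (Real.exp_log (act_mem g hp)).symm
    rw [h4, h3]
    exact Real.one_le_exp (Int.fract_nonneg _)
  · have h3 : rho (act g p) = Int.fract (rho p + n * (p 0).re) := by
      rw [rho_act g hp, Int.fract]; simp [hg, sub_eq_add_neg]
    have h4 : nu (act g p) = Real.exp (rho (act g p)) := (Real.exp_log (act_mem g hp)).symm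
    rw [h4, h3]
    exact Real.exp_le_exp.2 (Int.fract_lt_one _).le
  · have := Q_phi D g (x := p) hp
    exact this.trans (Q_rep D y)

end Pool.Agent.H587Z.Aut
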