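import Mathlib
import Pool.Agent.H587Z.Aut.Grp

set_option autoImplicit false
set_option linter.unusedSectionVars false
open scoped Manifold ContDiff Topology ComplexConjugate
open Set Filter Complex

/-! The biholomorphisms `(z, x) ↦ (z + 2 π k i, x)` and smooth isotopies from the identity to
them, by quaternion multiplications in the fibre. -/

namespace Pool.Agent.H587Z.Aut

open Pool.Agent.Helper417.Mer

/-- translation by `σ` in the base and multiplication by the quaternion `u + w j` in the fibre -/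
noncomputable def op (σ u w : ℂ) (p : E3) : E3 :=
  mk3 (p 0 + σ) (u * p 1 - w * conj (p 2)) (u * p 2 + w * conj (p 1))

@[simp] lemma op_0 (σ u w : ℂ) (p : E3) : op σ u w p 0 = p 0 + σ := rfl
@[simp] lemma op_1 (σ u w : ℂ) (p : E3) : op σ u w p 1 = u * p 1 - w * conj (p 2) := rfl
@[simp] lemma op_2 (σ u w : ℂ) (p : E3) : op σ u w p 2 = u * p 2 + w * conj (p 1) := rfl

lemma op_op (σ u w σ' u' w' : ℂ) (p : E3) : op σ u w (op σ' u' w' p) =
    op (σ' + σ) (u * u' - w * conj w') (u * w' + w * conj u') p := by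
  apply ext3
  · simp [add_assoc]
  · simp only [op_1, op_2, map_add, map_mul, conj_conj]
    ring
  · simp only [op_1, op_2, map_sub, map_mul, conj_conj]
    ring

lemma op_id (p : E3) : op 0 1 0 p = p := by
  apply ext3 <;> simp

/-- the squared norm of a quaternion -/
noncomputable def nq (u w : ℂ) : ℂ := u * conj u + w * conj w

lemma conj_nq (u w : ℂ) : conj (nq u w) = nq u w := by
  simp only [nq, map_add, map_mul, conj_conj]
  ring

lemma nq_ne {u w : ℂ} (h : u ≠ 0 ∨ w ≠ 0) : nq u w ≠ 0 := by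
  rw [nq, mul_conj, mul_conj, ← ofReal_add, ofReal_ne_zero]
  have a := normSq_nonneg u
  have b := normSq_nonneg w
  rcases h with h | h
  · have := normSq_pos.2 h
    linarith
  · have := normSq_pos.2 h
    linarith

lemma op_left {u w : ℂ} (h : nq u w ≠ 0) (σ : ℂ) (p : E3) :
    op (-σ) (conj u / nq u w) (-w / nq u w) (op σ u w p) = p := by
  rw [op_op]
  have e1 : conj u / nq u w * u - -w / nq u w * conj w = 1 := by
    field_simp
    rw [nq]
    ring
  have e2 : conj u / nq u w * w + -w / nq u w * conj u = 0 := by ring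
  rw [e1, e2, add_neg_cancel, op_id]

lemma op_right {u w : ℂ} (h : nq u w ≠ 0) (σ : ℂ) (p : E3) :
    op σ u w (op (-σ) (conj u / nq u w) (-w / nq u w) p) = p := by
  rw [op_op]
  simp only [map_div₀, map_neg, conj_conj, conj_nq]
  have e1 : u * (conj u / nq u w) - w * (-conj w / nq u w) = 1 := by
    field_simp
    rw [nq]
    ring
  have e2 : u * (-w / nq u w) + w * (u / nq u w) = 0 := by ring
  rw [e1, e2, neg_add_cancel, op_id]

lemma not_mem_U {p : E3} : p ∉ U ↔ p 1 = 0 ∧ p 2 = 0 := by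
  have a := norm_nonneg (p 1)
  have b := norm_nonneg (p 2)
  simp only [U, nu, mem_ofPred_eq, not_lt]
  constructor
  · intro h
    exact ⟨norm_eq_zero.1 (by linarith), norm_eq_zero.1 (by linarith)⟩
  · rintro ⟨h1, h2⟩
    simp [h1, h2]

lemma mem_of_op {σ u w : ℂ} {p : E3} (h : op σ u w p ∈ U) : p ∈ U := by
  by_contra hp
  rw [not_mem_U] at hp
  apply not_mem_U.2 _ h
  simp [hp.1, hp.2]

/-- first coefficient -/
noncomputable def uu (s t b : ℝ) : ℂ :=
  exp (I * (b * t * s)) * ((1 - t) + t * exp (-(I * (b * s))))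

/-- second coefficient -/
noncomputable def ww (s t b : ℝ) : ℂ := t * (1 - t) * exp (I * (b ^ 2 + b * t * s))

lemma nq_uw (s t b : ℝ) : nq (uu s t b) (ww s t b) ≠ 0 := by
  apply nq_ne
  by_cases h0 : t = 0
  · left
    simp [uu, h0]
  by_cases h1 : t = 1
  · left
    simp [uu, h1]
  right
  refine mul_ne_zero (mul_ne_zero (ofReal_ne_zero.2 h0) ?_) (exp_ne_zero _)
  have : (1 : ℂ) - t = ((1 - t : ℝ) : ℂ) := by push_cast; ring
  rw [this, ofReal_ne_zero]
  exact sub_ne_zero.2 (Ne.symm h1)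

/-- the isotopy on the universal cover -/
noncomputable def Hs (s t : ℝ) (p : E3) : E3 :=
  op (I * (t * s)) (uu s t (p 0).im) (ww s t (p 0).im) p

/-- its inverse -/
noncomputable def Hi (s t : ℝ) (p : E3) : E3 :=
  op (-(I * (t * s)))
    (conj (uu s t ((p 0).im - t * s)) / nq (uu s t ((p 0).im - t * s)) (ww s t ((p 0).im - t * s)))
    (-(ww s t ((p 0).im - t * s)) / nq (uu s t ((p 0).im - t * s)) (ww s t ((p 0).im - t * s))) p

lemma Hi_Hs (s t : ℝ) (p : E3) : Hi s t (Hs s t p) = p := by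
  have e : (Hs s t p 0).im - t * s = (p 0).im := by simp [Hs]
  rw [Hi, e, Hs, op_left (nq_uw _ _ _)]

lemma Hs_Hi (s t : ℝ) (p : E3) : Hs s t (Hi s t p) = p := by
  have e : (Hi s t p 0).im = (p 0).im - t * s := by simp [Hi, sub_eq_add_neg]
  rw [Hs, e, Hi, op_right (nq_uw _ _ _)]

lemma Hs_mem (s t : ℝ) (p : E3) (hp : p ∈ U) : Hs s t p ∈ U := by
  rw [← Hi_Hs s t p] at hp
  exact mem_of_op hp

lemma Hi_mem (s t : ℝ) (p : E3) (hp : p ∈ U) : Hi s t p ∈ U := by
  rw [← Hs_Hi s t p] at hp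
  exact mem_of_op hp

section smooth

variable {V : Type} [NormedAddCommGroup V] [NormedSpace ℝ V]

lemma cd_ofReal {f : V → ℝ} (hf : ContDiff ℝ ∞ f) : ContDiff ℝ ∞ (fun v => (f v : ℂ)) :=
  ofRealCLM.contDiff.comp hf

lemma cd_conj {f : V → ℂ} (hf : ContDiff ℝ ∞ f) : ContDiff ℝ ∞ (fun v => conj (f v)) :=
  conjCLE.contDiff.comp hf

lemma cd_im {f : V → ℂ} (hf : ContDiff ℝ ∞ f) : ContDiff ℝ ∞ (fun v => (f v).im) :=
  imCLM.contDiff.comp hf

lemma cd_op {σ u w : V → ℂ} {p : V → E3} (hσ : ContDiff ℝ ∞ σ) (hu : ContDiff ℝ ∞ u)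
    (hw : ContDiff ℝ ∞ w) (hp : ContDiff ℝ ∞ p) :
    ContDiff ℝ ∞ (fun v => op (σ v) (u v) (w v) (p v)) := by
  have h0 : ContDiff ℝ ∞ (fun v => p v 0) := (contDiff_coord 0).comp hp
  have h1 : ContDiff ℝ ∞ (fun v => p v 1) := (contDiff_coord 1).comp hp
  have h2 : ContDiff ℝ ∞ (fun v => p v 2) := (contDiff_coord 2).comp hp
  exact contDiff_mk3 (h0.add hσ) ((hu.mul h1).sub (hw.mul (cd_conj h2)))
    ((hu.mul h2).add (hw.mul (cd_conj h1)))

lemma cd_uu (s : ℝ) {t b : V → ℝ} (ht : ContDiff ℝ ∞ t) (hb : ContDiff ℝ ∞ b) :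
    ContDiff ℝ ∞ (fun v => uu s (t v) (b v)) := by
  have h1 := cd_ofReal ht
  have h2 := cd_ofReal hb
  exact (contDiff_const.mul ((h2.mul h1).mul contDiff_const)).cexp.mul
    ((contDiff_const.sub h1).add
      (h1.mul (contDiff_const.mul (h2.mul contDiff_const)).neg.cexp))

lemma cd_ww (s : ℝ) {t b : V → ℝ} (ht : ContDiff ℝ ∞ t) (hb : ContDiff ℝ ∞ b) :
    ContDiff ℝ ∞ (fun v => ww s (t v) (b v)) := by
  have h1 := cd_ofReal ht
  have h2 := cd_ofReal hb
  exact (h1.mul (contDiff_const.sub h1)).mul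
    (contDiff_const.mul ((h2.pow 2).add ((h2.mul h1).mul contDiff_const))).cexp

end smooth

lemma cd_Hs (s : ℝ) : ContDiff ℝ ∞ (fun q : ℝ × E3 => Hs s q.1 q.2) := by
  have hb : ContDiff ℝ ∞ (fun q : ℝ × E3 => (q.2 0).im) :=
    cd_im ((contDiff_coord 0).comp contDiff_snd)
  exact cd_op (contDiff_const.mul ((cd_ofReal contDiff_fst).mul contDiff_const))
    (cd_uu s contDiff_fst hb) (cd_ww s contDiff_fst hb) contDiff_snd

lemma cd_Hs' (s t : ℝ) : ContDiff ℝ ∞ (Hs s t) :=
  (cd_Hs s).comp (contDiff_const.prodMk contDiff_id)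

lemma cd_Hi (s t : ℝ) : ContDiff ℝ ∞ (Hi s t) := by
  have hb : ContDiff ℝ ∞ (fun q : E3 => (q 0).im - t * s) :=
    (cd_im (contDiff_coord 0)).sub contDiff_const
  have hu := cd_uu s (contDiff_const (c := t)) hb
  have hw := cd_ww s (contDiff_const (c := t)) hb
  have hn : ContDiff ℝ ∞ (fun q : E3 =>
      (nq (uu s t ((q 0).im - t * s)) (ww s t ((q 0).im - t * s)))⁻¹) :=
    ContDiff.inv ((hu.mul (cd_conj hu)).add (hw.mul (cd_conj hw))) (fun q => nq_uw _ _ _)
  unfold Hi
  simp only [div_eq_mul_inv]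
  exact cd_op contDiff_const ((cd_conj hu).mul hn) (hw.neg.mul hn) contDiff_id

lemma exp_int (n k : ℤ) : exp (I * (n * ((2 * Real.pi * k : ℝ) : ℂ))) = 1 := by
  rw [exp_eq_one_iff]
  exact ⟨n * k, by push_cast; ring⟩

lemma Hs_act (k : ℤ) (t : ℝ) (g : Gam) (p : E3) :
    Hs (2 * Real.pi * k) t (act g p) = act g (Hs (2 * Real.pi * k) t p) := by
  have hs := exp_int g.n k
  set s : ℝ := 2 * Real.pi * k with hsdef
  set b : ℝ := (p 0).im with hb
  have hz : p 0 = (p 0).re + b * I := (re_add_im _).symm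
  have hcz : conj (p 0) = (p 0).re - b * I := by
    conv_lhs => rw [hz]
    simp [sub_eq_add_neg]
  have e0 : Hs s t p 0 = p 0 + I * (t * s) := rfl
  have eu : uu s t (b + g.n) * exp (ex g (p 0)) =
      exp (ex g (p 0 + I * (t * s))) * uu s t b := by
    have a1 : exp (-(I * (((b + g.n : ℝ) : ℂ) * s))) = exp (-(I * (b * s))) := by
      have : -(I * (((b + g.n : ℝ) : ℂ) * s)) = -(I * (b * s)) - I * (g.n * s) := by
        push_cast; ring
      rw [this, exp_sub, hs, div_one]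
    have a2 : exp (I * (((b + g.n : ℝ) : ℂ) * t * s)) * exp (ex g (p 0)) =
        exp (ex g (p 0 + I * (t * s))) * exp (I * (b * t * s)) := by
      rw [← exp_add, ← exp_add]
      congr 1
      simp only [ex]
      push_cast
      ring
    rw [uu, uu, a1]
    linear_combination (1 - (t : ℂ) + t * exp (-(I * (b * s)))) * a2
  have ew : ww s t (b + g.n) * conj (exp (ex g (p 0))) =
      exp (ex g (p 0 + I * (t * s))) * ww s t b := by
    have a2 : exp (I * (((b + g.n : ℝ) : ℂ) ^ 2 + ((b + g.n : ℝ) : ℂ) * t * s)) *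
        conj (exp (ex g (p 0))) =
        exp (ex g (p 0 + I * (t * s))) * exp (I * (b ^ 2 + b * t * s)) := by
      rw [← exp_conj, ← exp_add, ← exp_add]
      congr 1
      simp only [ex, map_add, map_mul, map_div₀, map_pow, map_intCast, conj_I, conj_ofNat, hcz]
      conv_rhs => rw [hz]
      push_cast
      ring
    rw [ww, ww]
    linear_combination (t : ℂ) * (1 - t) * a2
  apply ext3
  · simp only [Hs, op_0, act_0]
    ring
  · rw [act_1, e0]
    simp only [Hs, op_1, act_1, act_2, act_im, map_mul, ← hb]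
    linear_combination p 1 * eu - conj (p 2) * ew
  · rw [act_2, e0]
    simp only [Hs, op_2, act_1, act_2, act_im, map_mul, ← hb]
    linear_combination p 2 * eu + conj (p 1) * ew

/-- the translation -/
noncomputable def tr (s : ℝ) (p : E3) : E3 := mk3 (p 0 + I * s) (p 1) (p 2)

lemma Hs_zero (s : ℝ) (p : E3) : Hs s 0 p = p := by
  apply ext3 <;> simp [Hs, uu, ww]

lemma Hs_one (s : ℝ) : Hs s 1 = tr s := by
  funext p
  apply ext3 <;> simp [Hs, uu, ww, tr, ← exp_add]

lemma cd_tr (s : ℝ) : ContDiff ℂ ∞ (tr s) :=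
  contDiff_mk3 ((contDiff_coord 0).add contDiff_const) (contDiff_coord 1) (contDiff_coord 2)

lemma tr_mem (s : ℝ) (p : E3) (hp : p ∈ U) : tr s p ∈ U := hp

lemma tr_tr (s : ℝ) (p : E3) : tr s (tr (-s) p) = p := by
  apply ext3 <;> simp [tr]

lemma tr_tr' (s : ℝ) (p : E3) : tr (-s) (tr s p) = p := by
  apply ext3 <;> simp [tr]

lemma tr_act (k : ℤ) (g : Gam) (p : E3) :
    tr (2 * Real.pi * k) (act g p) = act g (tr (2 * Real.pi * k) p) := by
  rw [← Hs_one]
  exact Hs_act k 1 g p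

end Pool.Agent.H587Z.Aut
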