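import Mathlib
import Pool.Agent.H587Z.Aut.Grp

set_option autoImplicit false
set_option linter.unusedSectionVars false
open scoped Manifold ContDiff Topology
open Set Filter Complex

/-! A holomorphic self-map of `X` close to the identity preserves every fibre of `X → ℂ / ℤ[i]`. -/

namespace Pool.Agent.H587Z.Aut

open Pool.Agent.Helper417.Mer

/-- an invariant neighbourhood of the diagonal -/
def Near (p q : E3) : Prop :=
  ‖q 0 - p 0‖ < 1 / 2 ∧ |rho q - rho p - (p 0).im * (q 0 - p 0).re| < 1 / 2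

lemma near_self (p : E3) : Near p p := by
  constructor <;> simp

lemma near_act (g : Gam) {p q : E3} (hp : p ∈ U) (hq : q ∈ U) (h : Near p q) :
    Near (act g p) (act g q) := by
  have e : act g q 0 - act g p 0 = q 0 - p 0 := by simp
  refine ⟨by rw [e]; exact h.1, ?_⟩
  rw [e, rho_act g hp, rho_act g hq, act_im]
  convert h.2 using 2
  simp only [sub_re]
  ring

lemma int_eq_zero {a : ℤ} (h : |(a : ℝ)| < 1) : a = 0 := by
  have : |a| < 1 := by exact_mod_cast h
  exact Int.abs_lt_one_iff.1 this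

lemma near_unique {g : Gam} {p q : E3} (hq : q ∈ U) (h : Near p q) (h' : Near p (act g q)) :
    act g q = q := by
  have h1 : ‖act g q 0 - q 0‖ < 1 := by
    have : act g q 0 - q 0 = (act g q 0 - p 0) - (q 0 - p 0) := by ring
    rw [this]
    have := norm_sub_le (act g q 0 - p 0) (q 0 - p 0)
    linarith [h.1, h'.1]
  have hm : g.m = 0 := by
    apply int_eq_zero
    have := abs_re_le_norm (act g q 0 - q 0)
    rw [sub_re, act_re] at this
    simpa using this.trans_lt h1
  have hn : g.n = 0 := by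
    apply int_eq_zero
    have := abs_im_le_norm (act g q 0 - q 0)
    rw [sub_im, act_im] at this
    simpa using this.trans_lt h1
  have e0 : act g q 0 = q 0 := by simp [hm, hn]
  have hk : g.k = 0 := by
    apply int_eq_zero
    have a := h.2
    have b := h'.2
    rw [e0, rho_act g hq, hn] at b
    rw [abs_lt] at a b ⊢
    push_cast at b
    constructor <;> linarith [a.1, a.2, b.1, b.2]
  have : g = 1 := by ext <;> simp [hm, hn, hk]
  rw [this, act_one]

lemma eventually_near {T : Type} [TopologicalSpace T] {a b : T → E3} {t : T}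
    (ha : ContinuousAt a t) (hb : ContinuousAt b t) (hat : a t ∈ U) (hbt : b t ∈ U)
    (h : Near (a t) (b t)) : ∀ᶠ s in 𝓝 t, Near (a s) (b s) := by
  have a0 : ContinuousAt (fun s => a s 0) t := (continuous_coord 0).continuousAt.comp ha
  have b0 : ContinuousAt (fun s => b s 0) t := (continuous_coord 0).continuousAt.comp hb
  have ra : ContinuousAt (fun s => rho (a s)) t := (continuousAt_rho hat).comp ha
  have rb : ContinuousAt (fun s => rho (b s)) t := (continuousAt_rho hbt).comp hb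
  have c1 : ContinuousAt (fun s => ‖b s 0 - a s 0‖) t := (b0.sub a0).norm
  have c2 : ContinuousAt
      (fun s => |rho (b s) - rho (a s) - (a s 0).im * (b s 0 - a s 0).re|) t :=
    ((rb.sub ra).sub ((continuous_im.continuousAt.comp a0).mul
      (continuous_re.continuousAt.comp (b0.sub a0)))).abs
  exact (c1.eventually (gt_mem_nhds h.1)).and (c2.eventually (gt_mem_nhds h.2))

/-- the neighbourhood of the diagonal of `X` -/
def W : Set (X × X) := {y | ∃ p ∈ U, ∃ q ∈ U, Near p q ∧ D.Q p = y.1 ∧ D.Q q = y.2}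

lemma W_mem_nhds (y : X) : W ∈ 𝓝 (y, y) := by
  have ho : IsOpenMap D.q := D.hl.isOpenMap
  have ho2 : IsOpenMap (Prod.map D.q D.q) := ho.prodMap ho
  have hp : rep D y ∈ U := rep_mem D y
  have h1 : ∀ᶠ s : U × U in 𝓝 (D.sec y, D.sec y), Near s.1 s.2 :=
    eventually_near (a := fun s : U × U => (s.1 : E3)) (b := fun s : U × U => (s.2 : E3))
      (by fun_prop) (by fun_prop) hp hp (near_self _)
  have h2 := ho2.image_mem_nhds h1
  have h3 : Prod.map D.q D.q (D.sec y, D.sec y) = (y, y) := by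
    simp [D.sec_spec]
  rw [← h3]
  refine mem_of_superset h2 ?_
  rintro _ ⟨⟨p, q⟩, hpq, rfl⟩
  exact ⟨p, p.2, q, q.2, hpq, D.Q_eq p.2, D.Q_eq q.2⟩

lemma exp_eq_one {u : ℂ} (h : exp u = 1) (hu : ‖u‖ < 1) : u = 0 := by
  obtain ⟨n, hn⟩ := exp_eq_one_iff.1 h
  have h1 : ‖u‖ = |(n : ℝ)| * (2 * Real.pi) := by
    rw [hn]
    simp [abs_of_pos Real.pi_pos]
  have h2 : n = 0 := by
    apply int_eq_zero
    have := Real.pi_gt_three
    have h3 := abs_nonneg (n : ℝ)
    nlinarith
  rw [hn, h2]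
  simp

section lift

variable {h : X → X} (hW : ∀ y, (y, h y) ∈ W)
include hW

lemma exists_lift {p : E3} (hp : p ∈ U) : ∃ q ∈ U, Near p q ∧ D.Q q = h (D.Q p) := by
  obtain ⟨p', hp', q', hq', hn, e1, e2⟩ := hW (D.Q p)
  obtain ⟨g, hg⟩ := exists_phi D hp hp' e1.symm
  refine ⟨act g q', act_mem g hq', ?_, (Q_phi D g hq').trans e2⟩
  rw [hg]
  exact near_act g hp' hq' hn

omit hW in
lemma lift_unique {p q q' : E3} (hq : q ∈ U) (hq' : q' ∈ U) (h1 : Near p q) (h2 : Near p q')
    (e : D.Q q' = D.Q q) : q' = q := by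
  obtain ⟨g, hg⟩ := exists_phi D hq' hq e
  have hg' : q' = act g q := hg
  rw [hg'] at h2 ⊢
  exact near_unique hq h1 h2

open Classical in
/-- the lift -/
noncomputable def L (p : E3) : E3 := if hp : p ∈ U then (exists_lift hW hp).choose else p

lemma L_spec {p : E3} (hp : p ∈ U) :
    L hW p ∈ U ∧ Near p (L hW p) ∧ D.Q (L hW p) = h (D.Q p) := by
  rw [L, dif_pos hp]
  exact (exists_lift hW hp).choose_spec

lemma L_act (g : Gam) {p : E3} (hp : p ∈ U) : L hW (act g p) = act g (L hW p) := by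
  obtain ⟨a1, a2, a3⟩ := L_spec hW hp
  obtain ⟨b1, b2, b3⟩ := L_spec hW (act_mem g hp)
  refine lift_unique (act_mem g a1) b1 (near_act g hp a1 a2) b2 ?_
  have e1 : D.Q (act g p) = D.Q p := Q_phi D g hp
  have e2 : D.Q (act g (L hW p)) = D.Q (L hW p) := Q_phi D g a1
  rw [b3, e1, e2, a3]

lemma L_diff (hh : letI := D.cs; MDifferentiable 𝓘(ℂ, E3) 𝓘(ℂ, E3) h) {p : E3} (hp : p ∈ U) :
    DifferentiableAt ℂ (L hW) p := by
  obtain ⟨a1, a2, a3⟩ := L_spec hW hp
  obtain ⟨s, hs, hsp, hev⟩ := exists_local_lift D hh hp a1 a3.symm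
  refine hs.congr_of_eventuallyEq ?_
  have h1 : ∀ᶠ u in 𝓝 p, Near u (s u) :=
    eventually_near (a := fun u => u) continuousAt_id hs.continuousAt hp (hsp ▸ a1) (hsp ▸ a2)
  filter_upwards [h1, hev, isOpen_U.mem_nhds hp] with u hu1 hu2 hu3
  obtain ⟨b1, b2, b3⟩ := L_spec hW hu3
  exact lift_unique hu2.1 b1 hu1 b2 (b3.trans hu2.2.symm)

/-- the surface through `p` -/
noncomputable def sl (p : E3) (v : ℂ × ℂ) : E3 := mk3 v.1 (exp v.2 * p 1) (exp v.2 * p 2)

omit hW in
lemma nu_sl (p : E3) (v : ℂ × ℂ) : nu (sl p v) = Real.exp v.2.re * nu p := by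
  simp only [nu, sl, mk3_1, mk3_2, norm_mul, norm_exp]
  ring

omit hW in
lemma sl_mem {p : E3} (hp : p ∈ U) (v : ℂ × ℂ) : sl p v ∈ U := by
  show 0 < nu (sl p v)
  rw [nu_sl]
  exact mul_pos (Real.exp_pos _) hp

omit hW in
lemma rho_sl {p : E3} (hp : p ∈ U) (v : ℂ × ℂ) : rho (sl p v) = v.2.re + rho p := by
  rw [rho, nu_sl, Real.log_mul (Real.exp_ne_zero _) (ne_of_gt hp), Real.log_exp, rho]

omit hW in
lemma sl_diff (p : E3) : Differentiable ℂ (sl p) := by
  have : ContDiff ℂ 1 (sl p) :=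
    contDiff_mk3 contDiff_fst (contDiff_snd.cexp.mul contDiff_const)
      (contDiff_snd.cexp.mul contDiff_const)
  exact this.differentiable (by simp)

theorem L_zero (hh : letI := D.cs; MDifferentiable 𝓘(ℂ, E3) 𝓘(ℂ, E3) h) {p : E3} (hp : p ∈ U) :
    L hW p 0 = p 0 := by
  have hd : Differentiable ℂ (fun v => L hW (sl p v)) := fun v =>
    (L_diff hW hh (sl_mem hp v)).comp v (sl_diff p v)
  have hdi : ∀ i : Fin 3, Differentiable ℂ (fun v => L hW (sl p v) i) :=
    (differentiable_piLp 2).1 hd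
  have hs := fun v => L_spec hW (sl_mem hp v)
  have ha : Differentiable ℂ (fun v : ℂ × ℂ => L hW (sl p v) 0 - v.1) :=
    (hdi 0).sub differentiable_fst
  have hab : Bornology.IsBounded (range (fun v : ℂ × ℂ => L hW (sl p v) 0 - v.1)) := by
    rw [isBounded_iff_forall_norm_le]
    refine ⟨1 / 2, ?_⟩
    rintro _ ⟨v, rfl⟩
    exact (hs v).2.1.1.le
  set c : ℂ := L hW (sl p 0) 0 - (0 : ℂ × ℂ).1 with hc
  have hcv : ∀ v : ℂ × ℂ, L hW (sl p v) 0 - v.1 = c := fun v =>
    ha.apply_eq_apply_of_bounded hab v 0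
  have hcn : ‖c‖ < 1 / 2 := (hs 0).2.1.1
  have hb : ∀ i : Fin 3, (∀ q : E3, ‖q i‖ ≤ nu q) → ∀ v : ℂ × ℂ,
      exp (I * v.1 * c.re - v.2) * L hW (sl p v) i = L hW (sl p 0) i := by
    intro i hi v
    have hf : Differentiable ℂ
        (fun v : ℂ × ℂ => exp (I * v.1 * c.re - v.2) * L hW (sl p v) i) := by
      refine Differentiable.mul ?_ (hdi i)
      fun_prop
    have hfb : Bornology.IsBounded
        (range (fun v : ℂ × ℂ => exp (I * v.1 * c.re - v.2) * L hW (sl p v) i)) := by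
      rw [isBounded_iff_forall_norm_le]
      refine ⟨Real.exp (rho p + 1 / 2), ?_⟩
      rintro _ ⟨v, rfl⟩
      obtain ⟨b1, ⟨-, b2⟩, -⟩ := hs v
      have e0 : sl p v 0 = v.1 := rfl
      rw [e0, hcv v, rho_sl hp] at b2
      have b3 := (abs_lt.1 b2).2
      have b4 : nu (L hW (sl p v)) = Real.exp (rho (L hW (sl p v))) := (Real.exp_log b1).symm
      have b5 : (I * v.1 * c.re - v.2).re = -(v.1.im * c.re) - v.2.re := by simp
      simp only [norm_mul, norm_exp, b5]
      calc _ ≤ Real.exp (-(v.1.im * c.re) - v.2.re) * Real.exp (rho (L hW (sl p v))) := by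
            rw [← b4]
            gcongr
            exact hi _
        _ ≤ _ := by
            rw [← Real.exp_add]
            apply Real.exp_le_exp.2
            linarith
    have := hf.apply_eq_apply_of_bounded hfb v 0
    simpa using this
  have n1 : ∀ q : E3, ‖q 1‖ ≤ nu q := fun q => le_add_of_nonneg_right (norm_nonneg _)
  have n2 : ∀ q : E3, ‖q 2‖ ≤ nu q := fun q => le_add_of_nonneg_left (norm_nonneg _)
  have hne : ∃ i : Fin 3, (∀ q : E3, ‖q i‖ ≤ nu q) ∧ L hW (sl p 0) i ≠ 0 ∧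
      ∀ (g : Gam) (q : E3), act g q i = exp (ex g (q 0)) * q i := by
    by_cases h1 : L hW (sl p 0) 1 = 0
    · refine ⟨2, n2, ?_, act_2⟩
      intro h2
      have : 0 < nu (L hW (sl p 0)) := (hs 0).1
      simp [nu, h1, h2] at this
    · exact ⟨1, n1, h1, act_1⟩
  obtain ⟨i, hi, hi0, hia⟩ := hne
  have e1 : sl p (1, 0) = act ⟨1, 0, 0⟩ (sl p 0) := by
    apply ext3 <;> simp [sl, ex]
  have e2 : sl p (I, I / 2) = act ⟨0, 1, 0⟩ (sl p 0) := by
    apply ext3 <;> simp [sl, ex]
  have f1 := hb i hi (1, 0)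
  rw [e1, L_act hW _ (sl_mem hp 0), hia] at f1
  have f2 := hb i hi (I, I / 2)
  rw [e2, L_act hW _ (sl_mem hp 0), hia] at f2
  have hre : (c.re : ℂ) = 0 := by
    have g1 : exp (I * c.re) = 1 := by
      apply mul_right_cancel₀ hi0
      simpa [ex] using f1
    have g2 := exp_eq_one g1 (by
      have := abs_re_le_norm c
      simp only [norm_mul, norm_I, one_mul, norm_real, Real.norm_eq_abs]
      linarith)
    simpa using g2
  have hc0 : c = 0 := by
    have e3 : L hW (sl p 0) 0 = c := by simp [hc]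
    have g1 : exp c = 1 := by
      apply mul_right_cancel₀ hi0
      rw [hre, e3, ← mul_assoc, ← exp_add] at f2
      have e4 : I * (I, I / 2).1 * 0 - (I, I / 2).2 + ex ⟨0, 1, 0⟩ c = c := by
        simp [ex]
      rw [e4] at f2
      simpa using f2
    exact exp_eq_one g1 (by linarith)
  have e5 : sl p (p 0, 0) = p := by
    apply ext3 <;> simp [sl]
  have := hcv (p 0, 0)
  rw [e5, hc0] at this
  exact sub_eq_zero.1 this

end lift

/-- the point of the base `ℂ / ℤ[i]` under a point of `X`, as a coset -/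
def beta (y : X) : Set ℂ := {z | ∃ m n : ℤ, z = rep D y 0 + m + n * I}

lemma beta_Q {p : E3} (hp : p ∈ U) : beta (D.Q p) = {z | ∃ m n : ℤ, z = p 0 + m + n * I} := by
  obtain ⟨g, hg⟩ := exists_phi D (rep_mem D (D.Q p)) hp (Q_rep D _)
  have hg' : rep D (D.Q p) = act g p := hg
  ext z
  simp only [beta, hg', act_0, mem_ofPred_eq]
  constructor
  · rintro ⟨m, n, rfl⟩
    exact ⟨g.m + m, g.n + n, by push_cast; ring⟩
  · rintro ⟨m, n, rfl⟩
    exact ⟨m - g.m, n - g.n, by push_cast; ring⟩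

theorem rigid {h : X → X} (hW : ∀ y, (y, h y) ∈ W)
    (hh : letI := D.cs; MDifferentiable 𝓘(ℂ, E3) 𝓘(ℂ, E3) h) (y : X) : beta (h y) = beta y := by
  have hp : rep D y ∈ U := rep_mem D y
  obtain ⟨a1, -, a3⟩ := L_spec hW hp
  have e : h y = D.Q (L hW (rep D y)) := by rw [a3, Q_rep]
  rw [e, beta_Q a1, L_zero hW hh hp]
  rfl

end Pool.Agent.H587Z.Aut
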