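import Mathlib
import Pool.Agent.H587Z.Aut.Rigid
import Pool.Agent.H587Z.Aut.Iso

set_option autoImplicit false
set_option linter.unusedSectionVars false
open scoped Manifold ContDiff Topology
open Set Filter Complex

/-! The biholomorphisms of `X` isotopic to the identity have infinitely many components. -/

namespace Pool.Agent.H587Z.Aut

open Pool.Agent.Helper417.Mer

/-- the complex charts of `X` -/
@[reducible] noncomputable def cs : ChartedSpace E3 X := D.cs

attribute [local instance] cs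

/-- the biholomorphisms smoothly isotopic to the identity -/
def S : Set C(X, X) :=
  {g : C(X, X) | ∃ φ : Diffeomorph 𝓘(ℂ, E3) 𝓘(ℂ, E3) X X ∞, (⇑φ = ⇑g) ∧
    ∃ H : ℝ → X → X,
      ContMDiff ((𝓘(ℝ, ℝ)).prod (𝓘(ℝ, E3))) (𝓘(ℝ, E3)) ∞ (fun p : ℝ × X => H p.1 p.2) ∧
      H 0 = id ∧ H 1 = ⇑g ∧
      ∀ t : ℝ, ∃ ψ : Diffeomorph (𝓘(ℝ, E3)) (𝓘(ℝ, E3)) X X ∞, ⇑ψ = H t}

lemma manifold : IsManifold 𝓘(ℂ, E3) ∞ X := by
  have : IsManifold 𝓘(ℂ, E3) ω X := D.isManifold
  exact IsManifold.of_le (n := ω) le_top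

lemma exists_mem (k : ℤ) : ∃ g ∈ S, ⇑g = desc D (tr (2 * Real.pi * k)) := by
  obtain ⟨φ, hφ⟩ := exists_diffeo D ℂ (fun g => act_contDiff g) (cd_tr (2 * Real.pi * k))
    (cd_tr (-(2 * Real.pi * k))) (tr_mem _) (tr_mem _) (tr_tr _) (tr_tr' _)
    (fun g x _ => tr_act k g x)
  refine ⟨⟨φ, φ.continuous⟩, ⟨φ, rfl, fun t => desc D (Hs (2 * Real.pi * k) t), ?_, ?_, ?_, ?_⟩,
    hφ⟩
  · exact contMDiff_desc_family D ℝ (fun g => act_contDiff g) (cd_Hs _) (Hs_mem _)
      (fun t g x _ => Hs_act k t g x)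
  · funext y
    simp only [desc, Hs_zero, Q_rep, id]
  · simp only [Hs_one]
    exact hφ.symm
  · intro t
    exact exists_diffeo D ℝ (fun g => act_contDiff g) (cd_Hs' _ t) (cd_Hi _ t) (Hs_mem _ t)
      (Hi_mem _ t) (Hs_Hi _ t) (Hi_Hs _ t) (fun g x _ => Hs_act k t g x)

lemma locally_constant (y : X) : IsLocallyConstant (fun g : S => beta ((g : C(X, X)) y)) := by
  have := compact
  have := t2
  rw [IsLocallyConstant.iff_eventually_eq]
  intro g₀
  have h1 : ∀ᶠ g : C(X, X) in 𝓝 (g₀ : C(X, X)), ∀ x ∈ (univ : Set X),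
      ((g₀ : C(X, X)) x, g x) ∈ W := by
    apply isCompact_univ.eventually_forall_of_forall_eventually
    intro x _
    have hc : Continuous (fun z : C(X, X) × X => ((g₀ : C(X, X)) z.2, z.1 z.2)) :=
      ((g₀ : C(X, X)).continuous.comp continuous_snd).prodMk continuous_eval
    exact hc.continuousAt.preimage_mem_nhds (W_mem_nhds _)
  have h2 := (continuous_subtype_val.tendsto g₀).eventually h1
  filter_upwards [h2] with g hg
  obtain ⟨φ₀, hφ₀, -⟩ := g₀.2
  obtain ⟨φ, hφ, -⟩ := g.2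
  have hW : ∀ x, (x, φ (φ₀.symm x)) ∈ W := by
    intro x
    have := hg (φ₀.symm x) (mem_univ _)
    rwa [← hφ₀, ← hφ, φ₀.apply_symm_apply] at this
  have hh : MDifferentiable 𝓘(ℂ, E3) 𝓘(ℂ, E3) (fun x => φ (φ₀.symm x)) :=
    (φ.contMDiff.comp φ₀.symm.contMDiff).mdifferentiable (by simp)
  have := rigid hW hh (φ₀ y)
  rw [φ₀.symm_apply_apply] at this
  rw [← hφ, ← hφ₀]
  exact this

theorem infinite_components : Infinite (ConnectedComponents S) := by
  choose f hf hf' using exists_mem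
  refine Infinite.of_injective (fun k : ℤ => ConnectedComponents.mk (⟨f k, hf k⟩ : S)) ?_
  intro k l hkl
  have h1 : (⟨f k, hf k⟩ : S) ∈ connectedComponent (⟨f l, hf l⟩ : S) :=
    ConnectedComponents.coe_eq_coe'.1 hkl
  have h2 := (locally_constant (D.Q (mk3 0 1 0))).apply_eq_of_isPreconnected
    isPreconnected_connectedComponent h1 mem_connectedComponent
  have e : ∀ j : ℤ, beta (f j (D.Q (mk3 0 1 0))) =
      {z | ∃ m n : ℤ, z = I * ((2 * Real.pi * j : ℝ) : ℂ) + m + n * I} := by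
    intro j
    rw [hf' j, desc_Q D (tr_mem _) (fun g x _ => tr_act j g x) mk3_mem,
      beta_Q (tr_mem _ _ mk3_mem)]
    simp [tr]
  simp only [e] at h2
  have h3 : I * ((2 * Real.pi * k : ℝ) : ℂ) ∈
      {z | ∃ m n : ℤ, z = I * ((2 * Real.pi * l : ℝ) : ℂ) + m + n * I} := by
    rw [← h2]
    exact ⟨0, 0, by simp⟩
  obtain ⟨m, n, h4⟩ := h3
  have h5 := congrArg Complex.im h4
  simp at h5
  by_contra hne
  have h6 : ((2 * (k - l) : ℤ) : ℝ) * Real.pi = n := by
    push_cast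
    linarith
  have h7 : (2 * (k - l) : ℤ) ≠ 0 := by omega
  exact (irrational_pi.intCast_mul h7).ne_int n h6

end Pool.Agent.H587Z.Aut
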